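import Pool.Agent.Lib.MP_524519_ag.DU5.Defs

/-! # Chapter TR: the transfer from `ℂ` to characteristic `p` (interface)

Author: helper71. Proofs: `DU5/TR/Paper.md`. -/

set_option autoImplicit false
set_option linter.unusedSectionVars false

namespace Pool.Agent.DU5.TR

open MvPowerSeries

/-! ## 1. Points -/

section

variable {k A : Type} [Field k] [CommRing A] [Algebra k A]

/-- The point `x` of the surface `f = 0` satisfies `f_{x_i} (x) = u^c v⁻¹`, `v` a unit. -/
def Dat (f : O k 3) (x : Fin 3 → PowerSeries A) (i : Fin 3) (c : ℕ) (v : PowerSeries A) : Prop :=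
  (∀ j, PowerSeries.constantCoeff (x j) = 0) ∧ ev x f = 0 ∧
    ∃ w : PowerSeries A, ev x (pderiv k i f) = PowerSeries.X ^ c * w ∧ w * v = 1

/-- The coefficient of `u^(m - c)` in the 2-form `h · ω`. -/
noncomputable def Pol (D : Derivation k A A) (x : Fin 3 → PowerSeries A) (i : Fin 3)
    (v : PowerSeries A) (h : O k 3) (m : ℕ) : A :=
  PowerSeries.coeff m (v * ev x h * jm D x i)

end

/-- The series `f` and its partial derivatives. -/
noncomputable def gen {k : Type} [Field k] (f : O k 3) : Option (Fin 3) → O k 3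
  | none => f
  | some i => pderiv k i f

/-- The ideal generated by the members `T` of the list of `f` and its partial derivatives. -/
noncomputable def gi {k : Type} [Field k] {r : ℕ} (T : Fin r → Option (Fin 3)) (f : O k 3) :
    Ideal (O k 3) := Ideal.span (Set.range fun a => gen f (T a))

/-- CHN. The chain rules, for every field `k` and every commutative `k`-algebra `A`. -/
def ChnStatement : Prop :=
  ∀ (n : ℕ) (k A : Type) [Field k] [CommRing A] [Algebra k A] (D : Derivation k A A)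
    (x : Fin n → PowerSeries A) (f : O k n), (∀ i, PowerSeries.constantCoeff (x i) = 0) →
    PowerSeries.derivative A (ev x f) =
      ∑ i, ev x (pderiv k i f) * PowerSeries.derivative A (x i) ∧
    dl D (ev x f) = ∑ i, ev x (pderiv k i f) * dl D (x i)

/-- TAY. Taylor's formula in one of the variables. -/
def TayStatement : Prop :=
  ∀ (n : ℕ) (k A : Type) [Field k] [CommRing A] [Algebra k A] (f : O k n)
    (x y : Fin n → PowerSeries A) (i : Fin n), (∀ j, PowerSeries.constantCoeff (x j) = 0) →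
    (∀ j, PowerSeries.constantCoeff (y j) = 0) → (∀ j, j ≠ i → y j = x j) →
    ∃ q : PowerSeries A, ev y f =
      ev x f + ev x (pderiv k i f) * (y i - x i) + (y i - x i) ^ 2 * q

/-- CNG. Congruences. -/
def CngStatement : Prop :=
  ∀ (n : ℕ) (k A : Type) [Field k] [CommRing A] [Algebra k A] (f : O k n)
    (x y : Fin n → PowerSeries A) (M : ℕ), (∀ j, PowerSeries.constantCoeff (x j) = 0) →
    (∀ j, PowerSeries.constantCoeff (y j) = 0) → (∀ j, PowerSeries.X ^ M ∣ y j - x j) →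
    PowerSeries.X ^ M ∣ ev y f - ev x f

/-- NEWT. Newton's lemma. -/
def NewtStatement : Prop :=
  ∀ (k A : Type) [Field k] [CommRing A] [Algebra k A] (f : O k 3) (x : Fin 3 → PowerSeries A)
    (i : Fin 3) (c N : ℕ) (w : PowerSeries A), (∀ j, PowerSeries.constantCoeff (x j) = 0) →
    2 * c + 1 ≤ N → PowerSeries.X ^ N ∣ ev x f →
    ev x (pderiv k i f) = PowerSeries.X ^ c * w → IsUnit w →
    ∃ y : Fin 3 → PowerSeries A, (∀ j, PowerSeries.constantCoeff (y j) = 0) ∧
      (∀ j, j ≠ i → y j = x j) ∧ PowerSeries.X ^ (N - c) ∣ y i - x i ∧ ev y f = 0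

/-- MPN. The coefficients of `f (x)` are polynomials in those of `f` and `x`. -/
def MpnStatement : Prop :=
  ∀ (n : ℕ) (k K F A : Type) [Field k] [CommRing K] [Algebra k K] [Field F] [CommRing A]
    [Algebra F A] (B : Subring K) (φ : B →+* A) (N : ℕ) (f : O k n) (f' : O F n)
    (x : Fin n → PowerSeries K) (x' : Fin n → PowerSeries A),
    (∀ j, PowerSeries.constantCoeff (x j) = 0) → (∀ j, PowerSeries.constantCoeff (x' j) = 0) →
    (∀ α : Fin n →₀ ℕ, α.degree ≤ N → ∃ b : B, (b : K) = algebraMap k K (coeff α f) ∧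
      φ b = algebraMap F A (coeff α f')) →
    (∀ j, ∀ m ≤ N, ∃ b : B, (b : K) = PowerSeries.coeff m (x j) ∧
      φ b = PowerSeries.coeff m (x' j)) →
    ∀ m ≤ N, ∃ b : B, (b : K) = PowerSeries.coeff m (ev x f) ∧
      φ b = PowerSeries.coeff m (ev x' f')

/-- The specialisation data: `φ : B → F⟦τ⟧` lifts `ψ : B' → F` and is compatible with `D` to first
order. -/
def Spe {R K F : Type} [CommRing R] [Field K] [Algebra R K] [Field F] (D : Derivation R K K)
    (B B' : Subring K) (ψ : B' →+* F) (φ : B →+* PowerSeries F) : Prop :=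
  B ≤ B' ∧ (∀ b ∈ B, D b ∈ B') ∧
    (∀ (b : B) (b' : B'), (b : K) = b' → PowerSeries.constantCoeff (φ b) = ψ b') ∧
    ∀ (b : B) (b' : B'), D (b : K) = b' → PowerSeries.coeff 1 (φ b) = ψ b'

/-- ARCL. Specialisation of a point of `f = 0` with coordinates in `K⟦u⟧` to a point of `f' = 0`
with coordinates in `F⟦τ⟧⟦u⟧`. -/
def ArclStatement : Prop :=
  ∀ (k K F : Type) [Field k] [Field K] [Algebra k K] [Field F] (D : Derivation k K K)
    (B B' : Subring K) (ψ : B' →+* F) (φ : B →+* PowerSeries F), Spe D B B' ψ φ →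
    ∀ (f : O k 3) (f' : O F 3) (x : Fin 3 → PowerSeries K) (i : Fin 3) (c N : ℕ)
      (v : PowerSeries K), Dat f x i c v → 3 * c + 2 ≤ N →
      PowerSeries.constantCoeff v ∈ B →
      (∀ α : Fin 3 →₀ ℕ, α.degree ≤ N → ∃ b : B, (b : K) = algebraMap k K (coeff α f) ∧
        φ b = PowerSeries.C (coeff α f')) →
      (∀ j, ∀ m ≤ N, PowerSeries.coeff m (x j) ∈ B) →
      ∃ (x' : Fin 3 → PowerSeries (PowerSeries F)) (v' : PowerSeries (PowerSeries F)),
        Dat f' x' i c v' ∧
        ∀ (h : O k 3) (h' : O F 3), (∀ α : Fin 3 →₀ ℕ, α.degree ≤ N →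
            ∃ b : B', (b : K) = algebraMap k K (coeff α h) ∧ ψ b = coeff α h') →
          ∀ m < c, ∃ b : B', (b : K) = Pol D x i v h m ∧
            ψ b = PowerSeries.constantCoeff (Pol (PowerSeries.derivative F) x' i v' h' m)

/-- LIFT (helper63). Specialisation of a finitely generated ring with a derivation. -/
def LiftStatement : Prop :=
  ∀ (A₀ K : Type) [CommRing A₀] [IsDomain A₀] [Field K] [CharZero K] [Algebra A₀ K],
    Function.Injective (algebraMap A₀ K) → ∀ (D : Derivation A₀ K K) (S S₀ G : Finset K),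
    (∀ c ∈ S₀, D c = 0) → (0 : K) ∉ G →
    ∃ a : A₀, a ≠ 0 ∧ ∀ (F : Type) [Field F] [IsAlgClosed F] (ρ : A₀ →+* F), ρ a ≠ 0 →
      ∃ (B B' : Subring K) (ψ : B' →+* F) (φ : B →+* PowerSeries F), Spe D B B' ψ φ ∧
        (∀ s ∈ S, s ∈ B) ∧ (∀ s ∈ G, s ∈ B) ∧
        (∀ a, ∃ b : B, (b : K) = algebraMap A₀ K a ∧ φ b = PowerSeries.C (ρ a)) ∧
        (∀ c ∈ S₀, ∃ (b : B) (e : F), (b : K) = c ∧ φ b = PowerSeries.C e) ∧
        (∀ g : B', (g : K) ∈ G → ψ g ≠ 0)

/-! ## 2. From `ℂ` to `ℂ⟦τ⟧` -/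

/-- POLE. A series outside of the adjoint ideal has a pole along a point where some partial
derivative does not vanish. -/
def PoleStatement : Prop :=
  ∀ (f : O ℂ 3) (m t : ℕ) (T : Fin t → Option (Fin 3)), len ℂ (gi T f) ≤ m →
    ∀ h : O ℂ 3, h ∉ adj f →
    ∃ (K : Type) (_ : Field K) (_ : Algebra ℂ K) (D : Derivation ℂ K K)
      (x : Fin 3 → PowerSeries K) (i : Fin 3) (c : ℕ) (v : PowerSeries K),
      Dat f x i c v ∧ ∃ r < c, Pol D x i v h r ≠ 0

/-- LAM. A point of `f = 0` with a pole of `h` specialises to a point over `ℂ⟦τ⟧`. -/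
def LamStatement : Prop :=
  ∀ (f : O ℂ 3) (m n t : ℕ) (T : Fin t → Option (Fin 3)), len ℂ (gi T f) ≤ m →
    ∀ (h : Fin n → O ℂ 3) (e : Fin n → ℂ), ∑ b, e b • h b ∉ adj f →
    ∃ (x : Fin 3 → PowerSeries (PowerSeries ℂ)) (i : Fin 3) (c r : ℕ)
      (v : PowerSeries (PowerSeries ℂ)), Dat f x i c v ∧ r < c ∧
      ∑ b, e b * PowerSeries.constantCoeff (Pol (PowerSeries.derivative ℂ) x i v (h b) r) ≠ 0

/-- DET. Linear algebra. -/
def DetStatement : Prop :=
  ∀ (n : ℕ) (F : Type) [Field F] (W : Set (Fin n → F)),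
    (∀ e : Fin n → F, e ≠ 0 → ∃ w ∈ W, ∑ b, e b * w b ≠ 0) →
    ∃ w : Fin n → Fin n → F, (∀ a, w a ∈ W) ∧ (Matrix.of w).det ≠ 0

/-- IND. A lower bound for the length gives independent classes. -/
def IndStatement : Prop :=
  ∀ (n : ℕ) (F : Type) [Field F] (I : Ideal (O F 3)),
    n ≤ len F I ↔ ∃ h : Fin n → O F 3, ∀ e : Fin n → F, ∑ b, e b • h b ∈ I → e = 0

/-- STP1. Finitely many points over `ℂ⟦τ⟧` detect the genus. -/
def Stp1Statement : Prop :=
  ∀ (f : O ℂ 3) (m n t : ℕ) (T : Fin t → Option (Fin 3)), len ℂ (gi T f) ≤ m →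
    n ≤ len ℂ (adj f) →
    ∃ (h : Fin n → O ℂ 3) (x : Fin n → Fin 3 → PowerSeries (PowerSeries ℂ)) (i : Fin n → Fin 3)
      (c r : Fin n → ℕ) (v : Fin n → PowerSeries (PowerSeries ℂ)),
      (∀ a, Dat f (x a) (i a) (c a) (v a) ∧ r a < c a) ∧
      (Matrix.of fun a b => PowerSeries.constantCoeff
        (Pol (PowerSeries.derivative ℂ) (x a) (i a) (v a) (h b) (r a))).det ≠ 0

/-! ## 3. From `ℂ` to characteristic `p` -/

/-- DFR. Derivations of fraction fields. -/
def DfrStatement : Prop :=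
  ∀ (k A : Type) [Field k] [CommRing A] [IsDomain A] [Algebra k A] (D : Derivation k A A),
    ∃ D' : Derivation k (FractionRing A) (FractionRing A),
      (∀ a, D' (algebraMap A (FractionRing A) a) = algebraMap A (FractionRing A) (D a)) ∧
      ∀ p : ℕ, 0 < p → (∀ a b, D (b ^ p * a) = b ^ p * D a) → (∀ a, D^[p] a = 0) →
        ∀ a, D'^[p] a = 0

/-- NICF. The derivation `d/dτ` of the fraction field of `F⟦τ⟧` is nice. -/
def NicfStatement : Prop :=
  ∀ (p : ℕ) [Fact p.Prime] (F : Type) [Field F] [CharP F p],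
    ∃ D' : Derivation F (FractionRing (PowerSeries F)) (FractionRing (PowerSeries F)),
      (∀ a, D' (algebraMap (PowerSeries F) (FractionRing (PowerSeries F)) a) =
        algebraMap (PowerSeries F) (FractionRing (PowerSeries F)) (PowerSeries.derivative F a)) ∧
      Nice p D'

/-- BCH. Base change of a point. -/
def BchStatement : Prop :=
  ∀ (k A K : Type) [Field k] [CommRing A] [Algebra k A] [CommRing K] [Algebra k K] (j : A →ₐ[k] K)
    (D : Derivation k A A) (D' : Derivation k K K), (∀ a, D' (j a) = j (D a)) →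
    ∀ (f : O k 3) (x : Fin 3 → PowerSeries A) (i : Fin 3) (c : ℕ) (v : PowerSeries A),
      Dat f x i c v →
      Dat f (fun l => PowerSeries.map (j : A →+* K) (x l)) i c (PowerSeries.map (j : A →+* K) v) ∧
      ∀ (h : O k 3) (m : ℕ), Pol D' (fun l => PowerSeries.map (j : A →+* K) (x l)) i
        (PowerSeries.map (j : A →+* K) v) h m = j (Pol D x i v h m)

/-- The ideal of the series of order at least `N`. -/
noncomputable def MO (k : Type) [Field k] (n N : ℕ) : Ideal (O k n) where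
  carrier := {h | ∀ α : Fin n →₀ ℕ, α.degree < N → coeff α h = 0}
  zero_mem' := by
    intro α _
    exact map_zero _
  add_mem' := by
    intro a b ha hb α hα
    rw [map_add, ha α hα, hb α hα, add_zero]
  smul_mem' := by
    classical
    intro c a ha α hα
    rw [smul_eq_mul, coeff_mul]
    refine Finset.sum_eq_zero fun q hq => ?_
    have h1 : q.1 + q.2 = α := Finset.HasAntidiagonal.mem_antidiagonal.1 hq
    have h2 : q.2.degree ≤ α.degree := by
      rw [← h1, map_add]
      omega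
    rw [ha q.2 (lt_of_le_of_lt h2 hα), mul_zero]

/-- NAK. Nakayama's lemma. -/
def NakStatement : Prop :=
  ∀ (n m : ℕ) (k : Type) [Field k] (I : Ideal (O k n)), len k (I ⊔ MO k n (m + 1)) ≤ m →
    len k I ≤ m ∧ MO k n (m + 1) ≤ I

/-- The exponents of degree at most `m`. -/
def Exd (n m : ℕ) : Set (Fin n →₀ ℕ) := {α | α.degree ≤ m}

noncomputable instance (n m : ℕ) : Fintype (Exd n m) :=
  (Finsupp.finite_of_degree_le m : Set.Finite {α : Fin n →₀ ℕ | α.degree ≤ m}).fintype

/-- The matrix of `(c_j) ↦ ∑ c_j a_j` modulo the series of order `m + 1`. -/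
noncomputable def Mat {R : Type} [CommRing R] (n r m : ℕ) (a : Fin r → (Fin n →₀ ℕ) → R) :
    Matrix (Exd n m) (Fin r × Exd n m) R :=
  Matrix.of fun β q => if (q.2 : Fin n →₀ ℕ) ≤ β then a q.1 (β - q.2) else 0

/-- RNK. The length modulo the series of order `m + 1` as a rank. -/
def RnkStatement : Prop :=
  ∀ (n r m : ℕ) (k : Type) [Field k] (a : Fin r → O k n),
    len k (Ideal.span (Set.range a) ⊔ MO k n (m + 1)) +
      ((Mat n r m fun j α => coeff α (a j)).rank : ℕ) = (Fintype.card (Exd n m) : ℕ)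

/-- SEMI. Semicontinuity of the length, with a universal polynomial. -/
def SemiStatement : Prop :=
  ∀ (n r m : ℕ) (k : Type) [Field k] (a : Fin r → O k n), len k (Ideal.span (Set.range a)) ≤ m →
    ∃ Δ : MvPolynomial (Fin r × (Fin n →₀ ℕ)) ℤ, (∀ q ∈ Δ.vars, q.2.degree ≤ m) ∧
      MvPolynomial.aeval (fun q : Fin r × (Fin n →₀ ℕ) => coeff q.2 (a q.1)) Δ ≠ 0 ∧
      ∀ (K : Type) [Field K] (b : Fin r → O K n),
        MvPolynomial.aeval (fun q : Fin r × (Fin n →₀ ℕ) => coeff q.2 (b q.1)) Δ ≠ 0 →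
        len K (Ideal.span (Set.range b)) ≤ m

/-- DTC. Points over `F⟦τ⟧` with a non-zero determinant detect independent classes modulo
`I^(0)`. -/
def DtcStatement : Prop :=
  ∀ (p : ℕ) [Fact p.Prime] (F : Type) [Field F] [CharP F p] (f : O F 3) (n : ℕ)
    (h : Fin n → O F 3) (x : Fin n → Fin 3 → PowerSeries (PowerSeries F)) (i : Fin n → Fin 3)
    (c r : Fin n → ℕ) (v : Fin n → PowerSeries (PowerSeries F)),
    (∀ a, Dat f (x a) (i a) (c a) (v a) ∧ r a < c a) →
    (Matrix.of fun a b => PowerSeries.constantCoeff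
      (Pol (PowerSeries.derivative F) (x a) (i a) (v a) (h b) (r a))).det ≠ 0 →
    n ≤ len F (IS p f 0)

/-- STP2. The reduction to characteristic `p` of the points of STP1. -/
def Stp2Statement : Prop :=
  ∀ (f : O ℂ 3) (m n t : ℕ) (T : Fin t → Option (Fin 3)), constantCoeff f = 0 →
    len ℂ (gi T f) ≤ m →
    ∀ (h : Fin n → O ℂ 3) (x : Fin n → Fin 3 → PowerSeries (PowerSeries ℂ)) (i : Fin n → Fin 3)
      (c r : Fin n → ℕ) (v : Fin n → PowerSeries (PowerSeries ℂ)),
      (∀ a, Dat f (x a) (i a) (c a) (v a) ∧ r a < c a) →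
      (Matrix.of fun a b => PowerSeries.constantCoeff
        (Pol (PowerSeries.derivative ℂ) (x a) (i a) (v a) (h b) (r a))).det ≠ 0 →
      ∃ P : ℕ, ∀ (p : ℕ) [Fact p.Prime], P < p →
        ∃ (f' : O (AlgebraicClosure (ZMod p)) 3) (h' : Fin n → O (AlgebraicClosure (ZMod p)) 3)
          (x' : Fin n → Fin 3 → PowerSeries (PowerSeries (AlgebraicClosure (ZMod p))))
          (v' : Fin n → PowerSeries (PowerSeries (AlgebraicClosure (ZMod p)))),
          constantCoeff f' = 0 ∧ len (AlgebraicClosure (ZMod p)) (gi T f') ≤ m ∧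
          (∀ a, Dat f' (x' a) (i a) (c a) (v' a)) ∧
          (Matrix.of fun a b => PowerSeries.constantCoeff
            (Pol (PowerSeries.derivative (AlgebraicClosure (ZMod p))) (x' a) (i a) (v' a) (h' b)
              (r a))).det ≠ 0

/-! ## 4. Assembly (proved here) -/

/-- TR. The transfer from `ℂ` to characteristic `p`. -/
def TrStatement : Prop :=
  ∀ (f : O ℂ 3) (m n t : ℕ) (T : Fin t → Option (Fin 3)), constantCoeff f = 0 →
    len ℂ (gi T f) ≤ m → n ≤ len ℂ (adj f) →
    ∃ P : ℕ, ∀ (p : ℕ) [Fact p.Prime], P < p →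
      ∃ f' : O (AlgebraicClosure (ZMod p)) 3, constantCoeff f' = 0 ∧
        len (AlgebraicClosure (ZMod p)) (gi T f') ≤ m ∧
        n ≤ len (AlgebraicClosure (ZMod p)) (IS p f' 0)

theorem tr (s1 : Stp1Statement) (s2 : Stp2Statement) (d : DtcStatement) : TrStatement := by
  intro f m n t T hf hm hn
  obtain ⟨h, x, i, c, r, v, hd, hdet⟩ := s1 f m n t T hm hn
  obtain ⟨P, hP⟩ := s2 f m n t T hf hm h x i c r v hd hdet
  refine ⟨P, fun p _ hp => ?_⟩
  obtain ⟨f', h', x', v', h0, hl, hd', hdet'⟩ := hP p hp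
  have : CharP (AlgebraicClosure (ZMod p)) p := inferInstance
  exact ⟨f', h0, hl, d p (AlgebraicClosure (ZMod p)) f' n h' x' i c r v'
    (fun a => ⟨hd' a, (hd a).2⟩) hdet'⟩

theorem trStatement (h : TrStatement) : TRStatement := by
  intro f m n hf hm hn
  exact h f m n 3 (fun i => some i) hf hm hn

/-- FIN. The theorem over `ℂ`. -/
def FinStatement : Prop :=
  ∀ f : O ℂ 3, constantCoeff f = 0 →
    6 * Cardinal.toENat (Module.rank ℂ (O ℂ 3 ⧸ adj f)) ≤
      Cardinal.toENat (Module.rank ℂ (O ℂ 3 ⧸ jac f))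

/-- LNR. The length of a quotient as a rank. -/
def LnrStatement : Prop :=
  ∀ (k : Type) [Field k] (n : ℕ) (I : Ideal (O k n)),
    len k I = Cardinal.toENat (Module.rank k (O k n ⧸ I))

theorem fin (l : LnrStatement) (tr : TRStatement) (cp : CPStatement) : FinStatement := by
  intro f hf
  rw [← l, ← l]
  by_contra hcon
  push Not at hcon
  obtain ⟨e, he⟩ := ENat.ne_top_iff_exists.1 (ne_top_of_lt hcon)
  rw [← he] at hcon
  obtain ⟨n, hn, hen⟩ : ∃ n : ℕ, (n : ℕ∞) ≤ len ℂ (adj f) ∧ e < 6 * n := by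
    rcases eq_or_ne (len ℂ (adj f)) ⊤ with h | h
    · exact ⟨e + 1, by rw [h]; exact le_top, by omega⟩
    · obtain ⟨n, hn⟩ := ENat.ne_top_iff_exists.1 h
      rw [← hn] at hcon
      exact ⟨n, le_of_eq hn, by exact_mod_cast hcon⟩
  obtain ⟨P, hP⟩ := tr f e n hf (le_of_eq he.symm) hn
  obtain ⟨Q, hQ⟩ := cp e
  obtain ⟨p, hp, hpr⟩ := Nat.exists_infinite_primes (P + Q + 1)
  have : Fact p.Prime := ⟨hpr⟩
  obtain ⟨f', h0, h1, h2⟩ := hP p (by omega)
  have h3 := hQ p (by omega) f' h0 h1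
  have h4 : ((6 * n : ℕ) : ℕ∞) ≤ (e : ℕ∞) := by
    refine le_trans ?_ h3
    push_cast
    exact mul_le_mul' le_rfl h2
  have h5 : 6 * n ≤ e := by exact_mod_cast h4
  omega

end Pool.Agent.DU5.TR
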